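import Pool.Agent.KDS.StmtsA

/-!
# KDS row DTS: nonarchimedean bound of the determinant of a product
-/

set_option autoImplicit false

namespace Pool.Agent.KDS.H81

open Polynomial NumberField H58Q Pool.Agent.SZT Pool.Agent.KDT Pool.Agent.KDS

theorem na_sum {E : Type} [Field E] {w : AbsoluteValue E ℝ} (hw : IsNonarchimedean w)
    {α : Type} (s : Finset α) (f : α → E) {B : ℝ} (hB : 0 ≤ B) (h : ∀ i ∈ s, w (f i) ≤ B) :
    w (∑ i ∈ s, f i) ≤ B := by
  classical
  induction s using Finset.induction_on with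
  | empty => simpa using hB
  | insert a s ha ih =>
    rw [Finset.sum_insert ha]
    exact (hw _ _).trans (max_le (h a (Finset.mem_insert_self a s))
      (ih fun i hi => h i (Finset.mem_insert_of_mem hi)))

theorem w_sign {E : Type} [Field E] (w : AbsoluteValue E ℝ) {ι : Type} [Fintype ι]
    [DecidableEq ι] (σ : Equiv.Perm ι) : w (((Equiv.Perm.sign σ : ℤˣ) : ℤ) : E) = 1 := by
  rcases Int.units_eq_one_or (Equiv.Perm.sign σ) with h | h
  · rw [h]; simp
  · rw [h]; simp

/-- the determinant of a matrix with rows bounded by `ρ` -/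
theorem w_det_le {E : Type} [Field E] {w : AbsoluteValue E ℝ} (hw : IsNonarchimedean w)
    {ι : Type} [Fintype ι] [DecidableEq ι] (M : Matrix ι ι E) (ρ : ι → ℝ) (hρ : ∀ j, 0 ≤ ρ j)
    (h : ∀ j q, w (M j q) ≤ ρ j) : w M.det ≤ ∏ j, ρ j := by
  rw [Matrix.det_apply']
  refine na_sum hw _ _ (Finset.prod_nonneg fun j _ => hρ j) ?_
  intro σ _
  rw [map_mul, w_sign, one_mul, map_prod, ← Equiv.prod_comp σ ρ]
  exact Finset.prod_le_prod (fun _ _ => w.nonneg _) fun q _ => h _ _

theorem dts : DtsStatement := by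
  intro E _ w hw ι n _ _ _ Xm Ym ρ y G hρ hG hX hY hy hs
  classical
  have hdet : (Matrix.of fun (j q : ι) => ∑ e, Xm j e * Ym e q).det =
      ∑ s : ι → n, (∏ q, Ym (s q) q) * (Matrix.of fun (j q : ι) => Xm j (s q)).det := by
    simp only [Matrix.det_apply', Matrix.of_apply, Finset.mul_sum]
    rw [Finset.sum_comm]
    refine Finset.sum_congr rfl fun σ _ => ?_
    rw [Finset.prod_univ_sum, Fintype.piFinset_univ, Finset.mul_sum]
    refine Finset.sum_congr rfl fun s _ => ?_
    rw [Finset.prod_mul_distrib]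
    ring
  rw [hdet]
  have hP : 0 ≤ ∏ j, ρ j := Finset.prod_nonneg fun j _ => hρ j
  refine na_sum hw _ _ (mul_nonneg hG hP) ?_
  intro s _
  by_cases hinj : Function.Injective s
  · rw [map_mul]
    refine mul_le_mul ?_ ?_ (w.nonneg _) hG
    · rw [map_prod]
      exact (Finset.prod_le_prod (fun _ _ => w.nonneg _) fun q _ => hY _ _).trans (hs s hinj)
    · exact w_det_le hw _ ρ hρ fun j q => hX _ _
  · have h0 : (Matrix.of fun (j q : ι) => Xm j (s q)).det = 0 := by
      rw [Function.not_injective_iff] at hinj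
      obtain ⟨a, b, hab, hne⟩ := hinj
      refine Matrix.det_zero_of_column_eq hne fun k => ?_
      rw [Matrix.of_apply, Matrix.of_apply, hab]
    rw [h0, mul_zero, map_zero]
    exact mul_nonneg hG hP

end Pool.Agent.KDS.H81
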