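import Pool.Agent.KDS.StmtsB

/-!
# KDS row GLI: the determinant at the infinite places
-/

set_option autoImplicit false

namespace Pool.Agent.KDS.H81

open Polynomial NumberField H58Q Pool.Agent.SZT Pool.Agent.KDT Pool.Agent.KDS

theorem card_Ex2 : (Ex 2).card = 10 := by decide

theorem sum_wt2 : ∑ e : Ex 2, wt e.1 = 30 := by
  rw [Finset.sum_coe_sort (Ex 2) (fun e => wt e)]
  decide

theorem card_QI (i : ℕ) : Fintype.card (QI i) = 10 ^ i := by
  unfold QI
  rw [Fintype.card_fun, Fintype.card_coe, card_Ex2, Fintype.card_fin]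

/-- the weights of the columns -/
theorem sum_wt_QI (i : ℕ) (a : Fin i) : ∑ q : QI i, wt (q a).1 = 10 ^ i * 3 := by
  have h := Finset.prod_univ_sum (fun _ : Fin i => (Finset.univ : Finset (Ex 2)))
    (fun b x => if b = a then wt x.1 else 1)
  have h1 : ∀ b : Fin i, ∑ x : Ex 2, (if b = a then wt x.1 else 1) =
      10 * (if b = a then 3 else 1) := by
    intro b
    by_cases hb : b = a
    · simp only [hb, if_true]
      exact sum_wt2
    · simp only [hb, if_false, Finset.sum_const, Finset.card_univ, Fintype.card_coe, card_Ex2]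
      rfl
  rw [Finset.prod_congr rfl fun b _ => h1 b, Finset.prod_mul_distrib, Finset.prod_const,
    Finset.card_univ, Fintype.card_fin, Finset.prod_ite_eq' Finset.univ a (fun _ => 3),
    if_pos (Finset.mem_univ a), Fintype.piFinset_univ] at h
  rw [h]
  refine Finset.sum_congr rfl fun q _ => ?_
  rw [Finset.prod_ite_eq' Finset.univ a (fun b => wt (q b).1), if_pos (Finset.mem_univ a)]

theorem map_mon {K E : Type} [Field K] [Field E] (φ : K →+* E) (e : Fin 4 → ℕ)
    (u : Fin 4 → K) : φ (mon e u) = mon e (fun l => φ (u l)) := by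
  unfold mon
  rw [map_prod]
  exact Finset.prod_congr rfl (fun l _ => map_pow φ _ _)

theorem map_mat {K E : Type} [Field K] [Field E] (φ : K →+* E) (i : ℕ)
    (u : QI i → ℕ → Fin 4 → K) :
    φ (Matrix.of fun (j q : QI i) => ∏ a : Fin i, mon (q a).1 (u j a)).det =
      (Matrix.of fun (j q : QI i) => ∏ a : Fin i, mon (q a).1 (fun l => φ (u j a l))).det := by
  rw [RingHom.map_det]
  congr 1
  ext j q
  rw [RingHom.mapMatrix_apply, Matrix.map_apply, Matrix.of_apply, Matrix.of_apply, map_prod]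
  exact Finset.prod_congr rfl (fun a _ => map_mon φ _ _)

theorem gli (pli : KDT.PliStatement) (unt : UntStatement) (dtb : KDT.DtbStatement) :
    GliStatement := by
  obtain ⟨ci, hci, hpli⟩ := pli
  intro i
  have hlog : 0 ≤ Real.log (((10 ^ i).factorial : ℕ) : ℝ) :=
    Real.log_nonneg (by exact_mod_cast Nat.factorial_pos _)
  refine ⟨2 * i * 10 ^ i * ci + Real.log (((10 ^ i).factorial : ℕ) : ℝ), by positivity, ?_⟩
  intro K _ _ v f M A B U W hmon hdeg hsq hVG hdet
  obtain ⟨c, hb⟩ := hpli K v f hmon hdeg hsq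
  set D := (Matrix.of fun (j q : QI i) =>
    ∏ a : Fin i, mon (q a).1 (kum f (A j a) (B j a))).det with hD
  have hw : ∀ x, NormedField.toAbsoluteValue ℂ (v.embedding x) = v x :=
    fun x => InfinitePlace.norm_embedding_eq v x
  have h1 : v.embedding D = (Matrix.of fun (j q : QI i) =>
      ∏ a : Fin i, mon (q a).1 (uni c (fun l => v.embedding (kum f (A j a) (B j a) l)))).det := by
    rw [hD, map_mat v.embedding i (fun j a => kum f (A j a) (B j a))]
    exact (unt ℂ c i (fun j a l => v.embedding (kum f (A j a) (B j a) l))).symm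
  set S : ℝ := Real.log (spr (f.map v.embedding)) with hS
  let R : QI i → Fin i → ℝ := fun j a =>
    2 * (Lv v f (A j a) (U j a) M - (1 / 2) * Real.log (v (discr f)) + ci) + 14 * S
  have h2 : v D ≤ (((10 ^ i).factorial : ℕ) : ℝ) *
      ((∏ j : QI i, ∏ a : Fin i, Real.exp (R j a)) *
        ∏ q : QI i, ∏ a : Fin i, Real.exp ((wt (q a).1 : ℝ) * S)) := by
    rw [← hw, h1, ← card_QI i]
    refine (dtb ℂ (NormedField.toAbsoluteValue ℂ) (QI i) _
      (fun j => ∏ a : Fin i, Real.exp (R j a))
      (fun q => ∏ a : Fin i, Real.exp ((wt (q a).1 : ℝ) * S)) ?_ ?_ ?_).1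
    · intro j
      exact Finset.prod_nonneg (fun a _ => (Real.exp_pos _).le)
    · intro e
      exact Finset.prod_nonneg (fun a _ => (Real.exp_pos _).le)
    · intro j q
      rw [Matrix.of_apply, map_prod, ← Finset.prod_mul_distrib]
      refine Finset.prod_le_prod (fun a _ => (NormedField.toAbsoluteValue ℂ).nonneg _)
        (fun a _ => ?_)
      obtain ⟨g1, g2⟩ := hVG j a a.isLt.le
      have h3 := hb (A j a) (B j a) (U j a) (W j a) M g1 g2 2 (q a).1 (q a).2
      rw [← Real.exp_add]
      refine le_trans h3 (le_of_eq ?_)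
      congr 1
      simp only [R]
      push_cast
      ring
  have h3 : 0 < v D := by
    rw [← hw]
    exact (NormedField.toAbsoluteValue ℂ).pos (by
      rw [Ne, map_eq_zero]
      exact hdet)
  have h4 : (∏ j : QI i, ∏ a : Fin i, Real.exp (R j a)) =
      Real.exp (∑ j : QI i, ∑ a : Fin i, R j a) := by
    rw [Real.exp_sum]
    exact Finset.prod_congr rfl (fun j _ => (Real.exp_sum _ _).symm)
  have h5 : (∏ q : QI i, ∏ a : Fin i, Real.exp ((wt (q a).1 : ℝ) * S)) =
      Real.exp (∑ q : QI i, ∑ a : Fin i, (wt (q a).1 : ℝ) * S) := by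
    rw [Real.exp_sum]
    exact Finset.prod_congr rfl (fun j _ => (Real.exp_sum _ _).symm)
  have hfac : (0 : ℝ) < (((10 ^ i).factorial : ℕ) : ℝ) := by
    exact_mod_cast Nat.factorial_pos _
  rw [h4, h5, ← Real.exp_add] at h2
  have h6 : Real.log (v D) ≤ (∑ j : QI i, ∑ a : Fin i, R j a +
      ∑ q : QI i, ∑ a : Fin i, (wt (q a).1 : ℝ) * S) +
        Real.log (((10 ^ i).factorial : ℕ) : ℝ) := by
    rw [Real.log_le_iff_le_exp h3, Real.exp_add _ (Real.log _), Real.exp_log hfac, mul_comm]
    exact h2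
  refine h6.trans (le_of_eq ?_)
  have h7 : ∀ (j : QI i) (a : Fin i), R j a = 2 * Lv v f (A j a) (U j a) M +
      (2 * ci - Real.log (v (discr f)) + 14 * S) := by
    intro j a
    simp only [R]
    ring
  have h8 : ∑ q : QI i, ∑ a : Fin i, (wt (q a).1 : ℝ) * S = i * (10 ^ i * 3) * S := by
    rw [Finset.sum_comm]
    have h9 : ∀ a : Fin i, ∑ q : QI i, (wt (q a).1 : ℝ) * S = 10 ^ i * 3 * S := by
      intro a
      rw [← Finset.sum_mul]
      congr 1
      have := sum_wt_QI i a
      exact_mod_cast this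
    rw [Finset.sum_congr rfl fun a _ => h9 a, Finset.sum_const, Finset.card_univ,
      Fintype.card_fin, nsmul_eq_mul]
    ring
  rw [h8]
  simp only [h7, Finset.sum_add_distrib, Finset.sum_const, Finset.card_univ, card_QI,
    Fintype.card_fin, nsmul_eq_mul, Nat.cast_pow, Nat.cast_ofNat]
  ring

end Pool.Agent.KDS.H81
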