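import Pool.Agent.KDS.StmtsA

/-!
# KDS row RPQ: the coefficients of the columns
-/

set_option autoImplicit false

namespace Pool.Agent.KDS.H81

open Polynomial NumberField H58Q Pool.Agent.SZT Pool.Agent.KDT Pool.Agent.KDS

/-- `min (2 σ) (1 - 2 σ)` -/
noncomputable def sg (σ : ℝ) : ℝ := min (2 * σ) (1 - 2 * σ)

theorem sg_nonneg {σ : ℝ} (h0 : 0 ≤ σ) (h1 : σ ≤ 1 / 2) : 0 ≤ sg σ :=
  le_min (by linarith) (by linarith)

theorem sg_le {σ : ℝ} : sg σ ≤ 1 / 2 := by
  unfold sg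
  rcases le_total (2 * σ) (1 / 2) with h | h
  · exact (min_le_left _ _).trans h
  · exact (min_le_right _ _).trans (by linarith)

theorem sg_quad (σ : ℝ) : sg σ - (sg σ) ^ 2 = 2 * σ - 4 * σ ^ 2 := by
  unfold sg
  rcases min_choice (2 * σ) (1 - 2 * σ) with h | h
  · rw [h]; ring
  · rw [h]; ring

/-- the function `ν` of level `i` -/
noncomputable def nu : ℕ → ℝ → ℝ
  | 0, _ => 0
  | i + 1, σ => 2 * (lev i : ℝ) * σ + nu i (sg σ)

theorem nu_zero (i : ℕ) : nu i 0 = 0 := by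
  induction i with
  | zero => rfl
  | succ i ih =>
    have h : sg 0 = 0 := by unfold sg; norm_num
    show 2 * (lev i : ℝ) * 0 + nu i (sg 0) = 0
    rw [h, ih]; ring

theorem nu_ge (i : ℕ) : ∀ σ : ℝ, 0 ≤ σ → σ ≤ 1 / 2 →
    (lev i : ℝ) * (σ - σ ^ 2) - i / 2 ≤ nu i σ := by
  induction i with
  | zero =>
    intro σ _ _
    show ((0 : ℕ) : ℝ) * (σ - σ ^ 2) - ((0 : ℕ) : ℝ) / 2 ≤ 0
    norm_num
  | succ i ih =>
    intro σ h0 h1
    have h2 := ih (sg σ) (sg_nonneg h0 h1) sg_le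
    rw [sg_quad] at h2
    have h3 : ((lev (i + 1) : ℕ) : ℝ) = 4 * (lev i : ℝ) + 2 := by
      show ((4 * lev i + 2 : ℕ) : ℝ) = _
      push_cast; ring
    show _ ≤ 2 * (lev i : ℝ) * σ + nu i (sg σ)
    rw [h3]
    push_cast
    nlinarith [sq_nonneg (σ - 1 / 2)]

section Main

variable {E : Type} [Field E] {w : AbsoluteValue E ℝ} {g : E[X]} {δ : ℝ} {Y : Set (Fin 4 → E)}

theorem rn_cast {κ κ' : ℕ} (h : κ = κ') {ν ν' : ℝ → ℝ} (hν : ∀ σ, ν σ = ν' σ)
    {F F' : (Fin 4 → E) → E} (hF : ∀ u, F u = F' u) (hR : RN w δ Y κ ν F) :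
    RN w δ Y κ' ν' F' := by
  subst h
  obtain rfl : ν = ν' := funext hν
  obtain rfl : F = F' := funext hF
  exact hR

theorem rn_pow (hrna : RnaStatement) (hN : NdC w g δ) (hY : ∀ u ∈ Y, quart g u = 0) {κ : ℕ}
    {ν : ℝ → ℝ} {F : (Fin 4 → E) → E} (hF : RN w δ Y κ ν F) (k : ℕ) :
    RN w δ Y (κ * k) (fun σ => k * ν σ) (fun u => F u ^ k) := by
  obtain ⟨-, -, h3, -, -, h6⟩ := hrna E w g δ Y hN hY
  induction k with
  | zero =>
    have h := h6 0 (fun _ => 0) (by norm_num)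
    refine rn_cast (by simp) ?_ ?_ h
    · intro σ
      simp [jj]
    · intro u
      simp [mon]
  | succ k ih =>
    refine rn_cast (by ring) ?_ ?_ (h3 _ _ _ _ _ _ ih hF)
    · intro σ; push_cast; ring
    · intro u; rw [pow_succ]

theorem rn_sum (hrna : RnaStatement) (hN : NdC w g δ) (hY : ∀ u ∈ Y, quart g u = 0) {κ : ℕ}
    {ν : ℝ → ℝ} {α : Type} (s : Finset α) (F : α → (Fin 4 → E) → E)
    (hF : ∀ i ∈ s, RN w δ Y κ ν (F i)) : RN w δ Y κ ν (fun u => ∑ i ∈ s, F i u) := by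
  classical
  obtain ⟨h1, -, -, -, h5, -⟩ := hrna E w g δ Y hN hY
  induction s using Finset.induction_on with
  | empty =>
    refine rn_cast rfl (fun _ => rfl) ?_ (h5 κ ν)
    intro u
    rw [Finset.sum_empty]
  | insert a s ha ih =>
    refine rn_cast rfl (fun _ => rfl) ?_ (h1 κ ν _ _ (hF a (Finset.mem_insert_self a s))
      (ih fun i hi => hF i (Finset.mem_insert_of_mem hi)))
    intro u
    rw [Finset.sum_insert ha]

/-- a monomial of the duplication -/
theorem rn_mon_dup (hrna : RnaStatement) (hrdp : RdpStatement) (hN : NdC w g δ)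
    (hY : ∀ u ∈ Y, quart g u = 0) {κ : ℕ} (e : Fin 4 → ℕ) (he : e 0 + e 1 + e 2 + e 3 = κ) :
    RN w δ Y (4 * κ) (fun σ => 2 * (κ : ℝ) * σ + ((κ : ℝ) - jj e) * sg σ)
      (fun u => mon e (dup g u)) := by
  obtain ⟨-, -, h3, -, -, -⟩ := hrna E w g δ Y hN hY
  have hd := hrdp E w g δ Y hN hY
  have h := h3 _ _ _ _ _ _ (h3 _ _ _ _ _ _ (h3 _ _ _ _ _ _
    (rn_pow hrna hN hY (hd 0) (e 0)) (rn_pow hrna hN hY (hd 1) (e 1)))
    (rn_pow hrna hN hY (hd 2) (e 2))) (rn_pow hrna hN hY (hd 3) (e 3))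
  refine rn_cast ?_ ?_ ?_ h
  · rw [← he]; ring
  · intro σ
    have e0 : ((0 : Fin 4) ≤ 1) = True := by decide
    have e1 : ((1 : Fin 4) ≤ 1) = True := by decide
    have e2 : ((2 : Fin 4) ≤ 1) = False := by decide
    have e3 : ((3 : Fin 4) ≤ 1) = False := by decide
    simp only [e0, e1, e2, e3, if_true, if_false]
    rw [← he]
    unfold jj sg
    push_cast
    ring
  · intro u
    unfold mon
    rw [Fin.prod_univ_four]

theorem pq_succ (i : ℕ) (q : QI (i + 1)) (u : Fin 4 → E) :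
    PQ g (i + 1) q u = mon (q 0).1 u * PQ g i (fun a => q a.succ) (dup g u) := by
  unfold PQ
  rw [Fin.prod_univ_succ]
  rfl

theorem ex_sum {κ : ℕ} (e : Ex κ) : e.1 0 + e.1 1 + e.1 2 + e.1 3 = κ :=
  ((Finset.mem_filter.1 e.2).2).1

theorem rn_pq (hrna : RnaStatement) (hrdp : RdpStatement) (hN : NdC w g δ) (i : ℕ) :
    ∀ q : QI i, RN w δ (YY g i) (lev i) (nu i) (PQ g i q) := by
  have hYY : ∀ i, ∀ u ∈ YY g i, quart g u = 0 := fun i u hu => hu 0 (Nat.zero_le i)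
  induction i with
  | zero =>
    intro q
    obtain ⟨-, -, -, -, -, h6⟩ := hrna E w g δ (YY g 0) hN (hYY 0)
    refine rn_cast rfl ?_ ?_ (h6 0 (fun _ => 0) (by norm_num))
    · intro σ
      show ((0 : ℕ) - ((jj fun _ => 0 : ℕ) : ℝ)) * σ = 0
      simp [jj]
    · intro u
      unfold PQ mon
      simp
  | succ i ih =>
    intro q
    obtain ⟨-, h2, h3, h4, -, h6⟩ := hrna E w g δ (YY g (i + 1)) hN (hYY (i + 1))
    obtain ⟨a, ha1, ha2⟩ := ih (fun a => q a.succ)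
    have hsum : RN w δ (YY g (i + 1)) (4 * lev i) (nu (i + 1))
        (fun u => ∑ e : Ex (lev i), a e * mon e.1 (dup g u)) := by
      refine rn_sum hrna hN (hYY (i + 1)) _ _ ?_
      intro e _
      refine rn_cast rfl ?_ (fun _ => rfl) (h2 (4 * lev i) _
        (fun σ => nu i (sg σ) - ((lev i : ℝ) - jj e.1) * sg σ) (a e) _ ?_
        (rn_mon_dup hrna hrdp hN (hYY (i + 1)) e.1 (ex_sum e)))
      · intro σ
        show nu i (sg σ) - ((lev i : ℝ) - jj e.1) * sg σ +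
          (2 * (lev i : ℝ) * σ + ((lev i : ℝ) - jj e.1) * sg σ) =
            2 * (lev i : ℝ) * σ + nu i (sg σ)
        ring
      · intro σ h0 h1
        exact ha2 e (sg σ) (sg_nonneg h0 h1) sg_le
    have hq : RN w δ (YY g (i + 1)) 2 (fun _ => 0) (mon (q 0).1) := by
      refine h4 2 _ _ _ ?_ (h6 2 (q 0).1 (ex_sum (q 0)))
      intro σ h0 _
      have h5 : jj (q 0).1 ≤ 2 := by
        have := ex_sum (q 0)
        unfold jj
        omega
      have h7 : ((jj (q 0).1 : ℕ) : ℝ) ≤ 2 := by exact_mod_cast h5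
      show 0 ≤ (((2 : ℕ) : ℝ) - jj (q 0).1) * σ
      refine mul_nonneg ?_ h0
      push_cast
      linarith
    have hprod := h3 2 (4 * lev i) _ _ _ _ hq hsum
    obtain ⟨b, hb1, hb2⟩ := hprod
    have hlev : 2 + 4 * lev i = lev (i + 1) := by
      show 2 + 4 * lev i = 4 * lev i + 2
      ring
    have hR : RN w δ (YY g (i + 1)) (2 + 4 * lev i) (nu (i + 1)) (PQ g (i + 1) q) := by
      refine ⟨b, ?_, ?_⟩
      · intro u hu
        rw [← hb1 u hu, pq_succ]
        congr 1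
        refine ha1 _ ?_
        intro c hc
        exact hu (c + 1) (by omega)
      · intro e σ h0 h1
        have h9 := hb2 e σ h0 h1
        simp only [zero_add] at h9
        exact h9
    exact rn_cast hlev (fun _ => rfl) (fun _ => rfl) hR

end Main

theorem rpq (hrna : RnaStatement) (hrdp : RdpStatement) : RpqStatement := by
  intro E _ w g δ hN i q
  obtain ⟨a, ha1, ha2⟩ := rn_pq hrna hrdp hN i q
  refine ⟨a, ha1, ?_⟩
  intro e
  have hδ := hN.pos
  rcases le_or_gt ((jj e.1 : ℝ) ^ 2 / (4 * lev i) - i / 2) 0 with h | h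
  · rw [max_eq_left h]
    have h1 := ha2 e 0 le_rfl (by norm_num)
    rw [nu_zero] at h1
    simpa using h1
  · rw [max_eq_right h.le]
    have hκ : 0 < lev i := by
      rcases Nat.eq_zero_or_pos (lev i) with h0 | h0
      · exfalso
        have h0r : ((lev i : ℕ) : ℝ) = 0 := by exact_mod_cast h0
        rw [h0r, mul_zero, div_zero] at h
        have : (0 : ℝ) ≤ (i : ℝ) / 2 := by positivity
        linarith
      · exact h0
    have hκr : (0 : ℝ) < lev i := by exact_mod_cast hκ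
    have hJ : jj e.1 ≤ lev i := by
      have := ex_sum e
      unfold jj
      omega
    have hJr : (jj e.1 : ℝ) ≤ lev i := by exact_mod_cast hJ
    set J : ℝ := (jj e.1 : ℝ) with hJdef
    have hJ0 : 0 ≤ J := Nat.cast_nonneg _
    set κ : ℝ := (lev i : ℝ) with hκdef
    have hσ0 : 0 ≤ J / (2 * κ) := by positivity
    have hσ1 : J / (2 * κ) ≤ 1 / 2 := by
      rw [div_le_div_iff₀ (by positivity) (by norm_num)]
      linarith
    refine (ha2 e (J / (2 * κ)) hσ0 hσ1).trans (Real.exp_le_exp.mpr ?_)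
    have h2 := nu_ge i (J / (2 * κ)) hσ0 hσ1
    rw [← hκdef] at h2
    have h3 : κ * (J / (2 * κ) - (J / (2 * κ)) ^ 2) - (κ - J) * (J / (2 * κ)) =
        J ^ 2 / (4 * κ) := by
      field_simp
      ring
    have h4 : J ^ 2 / (4 * κ) - i / 2 ≤ nu i (J / (2 * κ)) - (κ - J) * (J / (2 * κ)) := by
      linarith
    nlinarith

end Pool.Agent.KDS.H81
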